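import Pool.Agent.Helper53.PT.GoalsA

/-!
PACKET PT-KER (MP_705522_gt, project PT of helper53): the kernels `sinc`, `k2`, `k3`, `k4`.
-/

set_option autoImplicit false

namespace Pool.Agent.Helper32.PT

open MeasureTheory Set Filter Topology
open Pool.Agent.Helper53.PT (k2 k3 k4 GKER)

namespace KER

/-! ### power series with coefficients bounded by `1/j!` -/

/-- coefficients bounded by `1/j!` -/
def Bd (c : ℕ → ℝ) : Prop := ∀ j, |c j| ≤ 1 / (j.factorial : ℝ)

/-- derived coefficients -/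
def dc (c : ℕ → ℝ) (j : ℕ) : ℝ := ((j : ℝ) + 1) * c (j + 1)

lemma Bd.dc {c : ℕ → ℝ} (hc : Bd c) : Bd (dc c) := by
  intro j
  unfold KER.dc
  have h := hc (j + 1)
  rw [abs_mul, abs_of_pos (by positivity : (0:ℝ) < (j:ℝ) + 1)]
  have h2 : ((j:ℝ) + 1) * |c (j + 1)| ≤ ((j:ℝ) + 1) * (1 / ((j + 1).factorial : ℝ)) := by gcongr
  refine h2.trans (le_of_eq ?_)
  rw [Nat.factorial_succ]
  push_cast
  field_simp

lemma Bd.summable {c : ℕ → ℝ} (hc : Bd c) (v : ℝ) : Summable (fun j => c j * v ^ j) := by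
  refine Summable.of_norm_bounded (Real.summable_pow_div_factorial |v|) fun j => ?_
  rw [Real.norm_eq_abs, abs_mul, abs_pow]
  have h2 : |c j| * |v| ^ j ≤ 1 / (j.factorial : ℝ) * |v| ^ j := by
    gcongr
    exact hc j
  refine h2.trans (le_of_eq ?_)
  ring

/-- the function -/
noncomputable def F (c : ℕ → ℝ) (v : ℝ) : ℝ := ∑' j, c j * v ^ j

lemma F_hasSum {c : ℕ → ℝ} (hc : Bd c) (v : ℝ) : HasSum (fun j => c j * v ^ j) (F c v) :=
  (hc.summable v).hasSum

lemma F_deriv {c : ℕ → ℝ} (hc : Bd c) (v : ℝ) : HasDerivAt (F c) (F (dc c) v) v := by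
  set R : ℝ := |v| + 1 with hR
  have hR0 : 0 < R := by positivity
  set u : ℕ → ℝ := fun j => |c j| * (j * R ^ (j - 1)) with hu
  have hus : Summable u := by
    rw [← summable_nat_add_iff 1]
    refine Summable.of_nonneg_of_le (fun j => ?_) (fun j => ?_) (Real.summable_pow_div_factorial R)
    · simp only [hu]
      positivity
    · simp only [hu, Nat.add_sub_cancel]
      have h := (hc.dc) j
      unfold KER.dc at h
      rw [abs_mul, abs_of_pos (by positivity : (0:ℝ) < (j:ℝ) + 1)] at h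
      push_cast
      calc |c (j + 1)| * (((j:ℝ) + 1) * R ^ j) = (((j:ℝ) + 1) * |c (j + 1)|) * R ^ j := by ring
        _ ≤ 1 / (j.factorial : ℝ) * R ^ j := by gcongr
        _ = R ^ j / (j.factorial : ℝ) := by ring
  have h1 := hasDerivAt_tsum_of_isPreconnected (g := fun j z => c j * z ^ j)
    (g' := fun j z => c j * (j * z ^ (j - 1))) (t := Metric.ball (0:ℝ) R) (y₀ := 0) (y := v) hus
    Metric.isOpen_ball (convex_ball 0 R).isPreconnected
    (fun j y _ => (hasDerivAt_pow j y).const_mul (c j))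
    (fun j y hy => by
      rw [mem_ball_zero_iff, Real.norm_eq_abs] at hy
      rw [Real.norm_eq_abs, abs_mul, abs_mul, abs_pow, Nat.abs_cast]
      simp only [hu]
      gcongr)
    (by simpa using hR0) (hc.summable 0)
    (by rw [mem_ball_zero_iff, Real.norm_eq_abs]; linarith)
  have h2 : (∑' j, c j * (j * v ^ (j - 1))) = F (dc c) v := by
    have hs : Summable (fun j : ℕ => c j * (j * v ^ (j - 1))) := by
      refine Summable.of_norm_bounded hus fun j => ?_
      rw [Real.norm_eq_abs, abs_mul, abs_mul, abs_pow, Nat.abs_cast]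
      simp only [hu]
      have : |v| ≤ R := by linarith
      gcongr
    rw [hs.tsum_eq_zero_add]
    unfold F
    simp only [Nat.cast_zero, zero_mul, mul_zero, zero_add, Nat.add_sub_cancel]
    congr 1
    funext j
    unfold KER.dc
    push_cast
    ring
  rw [h2] at h1
  exact h1

lemma F_cont {c : ℕ → ℝ} (hc : Bd c) : Continuous (F c) :=
  continuous_iff_continuousAt.mpr fun v => (F_deriv hc v).continuousAt

lemma F_deriv_sqrt {c : ℕ → ℝ} (hc : Bd c) {k k' : ℝ → ℝ} (hk : ∀ w, HasSum (fun j => c j * w ^ (2 * j)) (k w))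
    (hk' : ∀ w, HasSum (fun j => dc c j * w ^ (2 * j)) (k' w)) {v : ℝ} (hv : 0 < v) :
    HasDerivAt (fun v => k (√v)) (k' (√v)) v := by
  have e : ∀ x, 0 ≤ x → ∀ j : ℕ, (√x) ^ (2 * j) = x ^ j := by
    intro x hx j
    rw [pow_mul, Real.sq_sqrt hx]
  have h1 : k' (√v) = F (dc c) v := by
    have h := hk' (√v)
    simp only [e v hv.le] at h
    exact h.unique (F_hasSum hc.dc v)
  rw [h1]
  refine (F_deriv hc v).congr_of_eventuallyEq ?_
  filter_upwards [Ioi_mem_nhds hv] with x hx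
  have h := hk (√x)
  simp only [e x (le_of_lt hx)] at h
  exact h.unique (F_hasSum hc x)

lemma cont_of {c : ℕ → ℝ} (hc : Bd c) {k : ℝ → ℝ} (hk : ∀ w, HasSum (fun j => c j * w ^ (2 * j)) (k w)) :
    Continuous k := by
  have h : k = fun w => F c (w ^ 2) := by
    funext w
    have h1 := hk w
    simp only [pow_mul] at h1
    exact h1.unique (F_hasSum hc (w ^ 2))
  rw [h]
  exact (F_cont hc).comp (continuous_pow 2)

/-- integrated coefficients -/
noncomputable def ic (m : ℕ) (c : ℕ → ℝ) (j : ℕ) : ℝ := -(1 / 2) * (c j / (2 * (j:ℝ) + m + 1))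

lemma int_of {c : ℕ → ℝ} (hc : Bd c) {k : ℝ → ℝ} (hk : ∀ w, HasSum (fun j => c j * w ^ (2 * j)) (k w))
    (m : ℕ) (w : ℝ) :
    HasSum (fun j => ic m c j * w ^ (2 * j)) (-(1 / 2) * ∫ s in (0 : ℝ)..1, s ^ m * k (s * w)) := by
  have h1 : HasSum (fun j => ∫ s in (0 : ℝ)..1, s ^ m * (c j * (s * w) ^ (2 * j)))
      (∫ s in (0 : ℝ)..1, s ^ m * k (s * w)) := by
    refine intervalIntegral.hasSum_integral_of_dominated_convergence
      (fun j _ => (w ^ 2) ^ j / (j.factorial : ℝ)) ?_ ?_ ?_ ?_ ?_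
    · intro j
      apply Continuous.aestronglyMeasurable
      fun_prop
    · intro j
      refine Filter.Eventually.of_forall fun s hs => ?_
      rw [uIoc_of_le zero_le_one] at hs
      rw [Real.norm_eq_abs, abs_mul, abs_mul, abs_pow, abs_of_pos hs.1,
        abs_of_nonneg (by rw [pow_mul]; positivity : 0 ≤ (s * w) ^ (2 * j))]
      have h2 : s ^ m ≤ 1 := pow_le_one₀ hs.1.le hs.2
      have h3 : (s * w) ^ (2 * j) ≤ (w ^ 2) ^ j := by
        rw [pow_mul]
        refine pow_le_pow_left₀ (sq_nonneg _) ?_ j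
        rw [mul_pow]
        have : s ^ 2 ≤ 1 := pow_le_one₀ hs.1.le hs.2
        nlinarith [sq_nonneg w]
      have h4 : 0 ≤ (s * w) ^ (2 * j) := by rw [pow_mul]; positivity
      calc s ^ m * (|c j| * (s * w) ^ (2 * j)) ≤ 1 * (1 / (j.factorial : ℝ) * (w ^ 2) ^ j) := by
            gcongr
            exact hc j
        _ = _ := by ring
    · refine Filter.Eventually.of_forall fun s _ => ?_
      exact Real.summable_pow_div_factorial (w ^ 2)
    · exact intervalIntegrable_const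
    · refine Filter.Eventually.of_forall fun s _ => ?_
      exact (hk (s * w)).mul_left (s ^ m)
  have h2 := h1.mul_left (-(1 / 2) : ℝ)
  have e : (fun j => ic m c j * w ^ (2 * j))
      = fun j => -(1 / 2) * ∫ s in (0 : ℝ)..1, s ^ m * (c j * (s * w) ^ (2 * j)) := by
    funext j
    have e1 : (fun s : ℝ => s ^ m * (c j * (s * w) ^ (2 * j)))
        = fun s => (c j * w ^ (2 * j)) * s ^ (m + 2 * j) := by
      funext s
      rw [mul_pow, pow_add]
      ring
    rw [e1, intervalIntegral.integral_const_mul, integral_pow]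
    unfold ic
    rw [one_pow, zero_pow (by omega)]
    push_cast
    rw [show (2 * (j:ℝ) + m + 1) = (m:ℝ) + 2 * j + 1 by ring]
    ring
  rw [e]
  exact h2

/-! ### the coefficients -/

/-- `sinc` -/
noncomputable def c0 (j : ℕ) : ℝ := (-1) ^ j / ((2 * j + 1).factorial : ℝ)
/-- `k2` -/
noncomputable def c1 (j : ℕ) : ℝ := (-1) ^ (j + 1) * ((j : ℝ) + 1) / ((2 * j + 3).factorial : ℝ)
/-- `k3` -/
noncomputable def c2 (j : ℕ) : ℝ := (-1) ^ j * (((j : ℝ) + 1) * (j + 2)) / ((2 * j + 5).factorial : ℝ)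
/-- `k4` -/
noncomputable def c3 (j : ℕ) : ℝ :=
  (-1) ^ (j + 1) * (((j : ℝ) + 1) * (j + 2) * (j + 3)) / ((2 * j + 7).factorial : ℝ)

lemma dc0 : dc c0 = c1 := by
  funext j
  unfold dc c0 c1
  rw [show 2 * (j + 1) + 1 = 2 * j + 3 by ring]
  ring

lemma dc1 : dc c1 = c2 := by
  funext j
  unfold dc c1 c2
  rw [show 2 * (j + 1) + 3 = 2 * j + 5 by ring]
  push_cast
  rw [pow_succ, pow_succ]
  ring

lemma dc2 : dc c2 = c3 := by
  funext j
  unfold dc c2 c3
  rw [show 2 * (j + 1) + 5 = 2 * j + 7 by ring]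
  push_cast
  ring

lemma bd0 : Bd c0 := by
  intro j
  unfold c0
  rw [abs_div, abs_pow, abs_neg, abs_one, one_pow, Nat.abs_cast]
  apply one_div_le_one_div_of_le (by positivity)
  exact_mod_cast Nat.factorial_le (by omega)

lemma bd1 : Bd c1 := dc0 ▸ bd0.dc
lemma bd2 : Bd c2 := dc1 ▸ bd1.dc
lemma bd3 : Bd c3 := dc2 ▸ bd2.dc

lemma ic0 : ic 2 c0 = c1 := by
  funext j
  unfold ic c0 c1
  rw [show (2 * j + 3).factorial = (2 * j + 3) * ((2 * j + 2) * (2 * j + 1).factorial) by
    rw [← Nat.factorial_succ, ← Nat.factorial_succ]]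
  have : ((2 * j + 1).factorial : ℝ) ≠ 0 := by positivity
  push_cast
  rw [pow_succ]
  field_simp
  ring

lemma ic1 : ic 4 c1 = c2 := by
  funext j
  unfold ic c1 c2
  rw [show (2 * j + 5).factorial = (2 * j + 5) * ((2 * j + 4) * (2 * j + 3).factorial) by
    rw [← Nat.factorial_succ, ← Nat.factorial_succ]]
  have : ((2 * j + 3).factorial : ℝ) ≠ 0 := by positivity
  push_cast
  rw [pow_succ]
  field_simp
  ring

lemma ic2 : ic 6 c2 = c3 := by
  funext j
  unfold ic c2 c3
  rw [show (2 * j + 7).factorial = (2 * j + 7) * ((2 * j + 6) * (2 * j + 5).factorial) by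
    rw [← Nat.factorial_succ, ← Nat.factorial_succ]]
  have : ((2 * j + 5).factorial : ℝ) ≠ 0 := by positivity
  push_cast
  rw [pow_succ]
  field_simp
  ring

lemma sinc_hasSum (w : ℝ) : HasSum (fun j => c0 j * w ^ (2 * j)) (Real.sinc w) := by
  rcases eq_or_ne w 0 with rfl | hw
  · rw [Real.sinc_zero]
    have h := hasSum_single (f := fun j => c0 j * (0:ℝ) ^ (2 * j)) 0 (fun j hj => by
      rw [zero_pow (by omega), mul_zero])
    simpa [c0] using h
  · rw [Real.sinc_of_ne_zero hw]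
    have h := (Real.hasSum_sin w).div_const w
    have e : (fun j => c0 j * w ^ (2 * j))
        = fun j : ℕ => (-1) ^ j * w ^ (2 * j + 1) / ((2 * j + 1).factorial : ℝ) / w := by
      funext j
      unfold c0
      rw [pow_succ]
      field_simp
    rw [e]
    exact h

lemma k2_hasSum (w : ℝ) : HasSum (fun j => c1 j * w ^ (2 * j)) (k2 w) := by
  rw [← ic0]
  exact int_of bd0 sinc_hasSum 2 w

lemma k3_hasSum (w : ℝ) : HasSum (fun j => c2 j * w ^ (2 * j)) (k3 w) := by
  rw [← ic1]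
  exact int_of bd1 k2_hasSum 4 w

lemma k4_hasSum (w : ℝ) : HasSum (fun j => c3 j * w ^ (2 * j)) (k4 w) := by
  rw [← ic2]
  exact int_of bd2 k3_hasSum 6 w

lemma bound_of {k : ℝ → ℝ} {M : ℝ} (hk : ∀ w, |k w| ≤ M) (m : ℕ) (w : ℝ) :
    |-(1 / 2) * ∫ s in (0 : ℝ)..1, s ^ m * k (s * w)| ≤ 1 / 2 * (M / ((m:ℝ) + 1)) := by
  rw [abs_mul, abs_neg, abs_of_pos (by norm_num : (0:ℝ) < 1 / 2)]
  gcongr
  have h1 : ∀ᵐ s : ℝ, s ∈ Set.uIoc (0:ℝ) 1 → ‖s ^ m * k (s * w)‖ ≤ M * s ^ m := by
    refine Filter.Eventually.of_forall fun s hs => ?_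
    rw [uIoc_of_le zero_le_one] at hs
    rw [Real.norm_eq_abs, abs_mul, abs_pow, abs_of_pos hs.1, mul_comm]
    have := hs.1
    gcongr
    exact hk _
  have h2 := intervalIntegral.norm_integral_le_abs_of_norm_le (μ := volume)
    ((ae_restrict_iff' measurableSet_uIoc).mpr h1) (by
      apply Continuous.intervalIntegrable
      fun_prop)
  rw [Real.norm_eq_abs] at h2
  refine h2.trans (le_of_eq ?_)
  rw [intervalIntegral.integral_const_mul, integral_pow, one_pow, zero_pow (by omega), sub_zero,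
    abs_of_nonneg]
  · ring
  · have := (abs_nonneg _).trans (hk 0)
    positivity

lemma k2_bd (w : ℝ) : |k2 w| ≤ 1 / 6 := by
  have h := bound_of Real.abs_sinc_le_one 2 w
  refine h.trans (le_of_eq ?_)
  norm_num

lemma k3_bd (w : ℝ) : |k3 w| ≤ 1 / 60 := by
  have h := bound_of k2_bd 4 w
  refine h.trans (le_of_eq ?_)
  norm_num

lemma k4_bd (w : ℝ) : |k4 w| ≤ 1 / 840 := by
  have h := bound_of k3_bd 6 w
  refine h.trans (le_of_eq ?_)
  norm_num

lemma k2_closed {w : ℝ} (hw : w ≠ 0) : k2 w = (w * Real.cos w - Real.sin w) / (2 * w ^ 3) := by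
  have h1 := ((Real.hasSum_cos w).mul_left w).sub (Real.hasSum_sin w)
  have h2 := (hasSum_nat_add_iff' 1).mpr h1
  simp only [Finset.range_one, Finset.sum_singleton, mul_zero, Nat.factorial_zero, pow_zero,
    Nat.cast_one, zero_add, Nat.factorial_one, pow_one, one_mul, div_one, mul_one, sub_self, sub_zero] at h2
  have h3 := h2.div_const (2 * w ^ 3)
  refine (k2_hasSum w).unique ?_
  have e : (fun j => c1 j * w ^ (2 * j)) = fun j : ℕ =>
      (w * ((-1) ^ (j + 1) * w ^ (2 * (j + 1)) / ((2 * (j + 1)).factorial : ℝ)) -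
          (-1) ^ (j + 1) * w ^ (2 * (j + 1) + 1) / ((2 * (j + 1) + 1).factorial : ℝ)) / (2 * w ^ 3) := by
    funext j
    unfold c1
    rw [show 2 * (j + 1) + 1 = 2 * j + 3 by ring, show 2 * (j + 1) = 2 * j + 2 by ring,
      show (2 * j + 3).factorial = (2 * j + 3) * (2 * j + 2).factorial from Nat.factorial_succ _]
    have : ((2 * j + 2).factorial : ℝ) ≠ 0 := by positivity
    push_cast
    rw [pow_add w (2 * j) 3, pow_add w (2 * j) 2]
    field_simp
    ring
  rw [e]
  exact h3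

end KER

open KER

theorem gKER : GKER := by
  refine ⟨k2_hasSum, k3_hasSum, k4_hasSum, fun w => ⟨k2_bd w, k3_bd w, k4_bd w⟩,
    fun w hw => k2_closed hw, fun v hv => ⟨?_, ?_, ?_⟩, cont_of bd1 k2_hasSum, cont_of bd2 k3_hasSum,
    cont_of bd3 k4_hasSum⟩
  · exact F_deriv_sqrt bd0 sinc_hasSum (by rw [dc0]; exact k2_hasSum) hv
  · exact F_deriv_sqrt bd1 k2_hasSum (by rw [dc1]; exact k3_hasSum) hv
  · exact F_deriv_sqrt bd2 k3_hasSum (by rw [dc2]; exact k4_hasSum) hv

end Pool.Agent.Helper32.PT
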